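import Mathlib
import Pool.Agent.Q8.KS.Core6

/-!
MP_e3c919_ag: the equality of the arithmetic degree and the dynamical degree for rational maps over
an endomorphism, at all but finitely many points of bounded degree and large relative degree.
-/

set_option autoImplicit false

namespace Pool.Agent.Results.MP_e3c919_ag.OverEndomorphisms

open Pool.Agent.Q8.KS

/-- Let `π : W → V` be a surjective morphism of projective varieties over a field `K` finitely generated over `ℚ`
with absolute Galois group `G`, `m = dim W`, and let `H₀` be an ample class on `W`. There is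
`κ > 0` such that the following holds for all dominant rational maps `F : W ⇢ W` and endomorphisms
`f` of `V` with `π ∘ F = f ∘ π` and with the same first dynamical degree `δ > 1`, all ample classes
`A` on `V` and `B` on `W` with a height `h_B`, and all finite morphisms `φ : W → ℙ^m` of degree `N`
such that `φ^* O(1)` is numerically a positive multiple of `H₀`.

(1) There is `C > 0` such that for every point `w` of `W` with a well-defined orbit,
`[K(w) : K(φ(w))] > (1 - κ) N` and `h(φ(w)) ≥ C`, the arithmetic degree of `F` at `w` exists and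
is `δ`; and `h_B(F^k(w)) ≥ C⁻¹ ((f^k)^* A ⋅ A^(dim V - 1)) h(φ(w))` for all `k`.

(2) For every `e` there are only finitely many points `w` of `W` with a well-defined orbit,
`[K(w) : K(φ(w))] > (1 - κ) N` and `[K(φ(w)) : K] ≤ e` for which this fails. -/
theorem result {G : Type} [Group G] (V W : Variety G) (π : Morphism W V)
    (hπ : Function.Surjective π.pt) (H₀ : W.Pic) (hH₀ : W.IsAmple H₀) :
    ∃ κ : ℝ, 0 < κ ∧ ∀ (F : RationalSelfMap W) (f : Morphism V V) (A : V.Pic), V.IsAmple A →
      1 < F.δ → IsDynamicalDegree f A F.δ → (∀ x ∈ F.dom, π.pt (F.pt x) = f.pt (π.pt x)) →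
      ∀ (B : W.Pic) (h_B : W.Pt → ℝ), W.IsAmple B → W.IsHeight B h_B →
      ∀ φ : Cover W, (∃ t : ℝ, 0 < t ∧ W.cls φ.H = t • W.cls H₀) →
        ∃ C : ℝ, 0 < C ∧
          (∀ w ∈ F.dom, (1 - κ) * φ.N < φ.relDeg w → C ≤ φ.h (φ.φ w) →
            F.IsArithmeticDegree h_B w F.δ ∧ ∀ k : ℕ,
              V.deg (V.cls A) ((f.ns ^ k) (V.cls A)) * φ.h (φ.φ w) ≤ C * h_B (F.pt^[k] w)) ∧
          ∀ e : ℕ, {w : W.Pt | w ∈ F.dom ∧ (1 - κ) * φ.N < φ.relDeg w ∧
            (MulAction.orbit G (φ.φ w)).ncard ≤ e ∧
              ¬ F.IsArithmeticDegree h_B w F.δ}.Finite :=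
  semiconjugate π hπ hH₀

end Pool.Agent.Results.MP_e3c919_ag.OverEndomorphisms
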